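import Mathlib

set_option autoImplicit false

namespace Pool.Agent.Results.MP_de9007_nt.Trichotomy

theorem fib_field {K : Type} [Field K] (x y : K) (h1 : x + y = 1) (h2 : x * y = -1) :
    ∀ n : ℕ, (Nat.fib n : K) * (x - y) = x ^ n - y ^ n := by
  intro n
  induction n using Nat.twoStepInduction with
  | zero => simp
  | one => simp
  | more n ih1 ih2 =>
    rw [Nat.fib_add_two]
    push_cast
    have hx : x ^ 2 = x + 1 := by linear_combination x * h1 - h2
    have hy : y ^ 2 = y + 1 := by linear_combination y * h1 - h2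
    linear_combination ih1 + ih2 - x ^ n * hx + y ^ n * hy

theorem dvd_fib (q P : ℕ) (hq : q.Prime) (h : q + 1 = 2 * P) (hP : P % 2 = 1) (h5 : q % 5 = 3) :
    q ∣ Nat.fib P := by
  have := Fact.mk hq
  let K := AlgebraicClosure (ZMod q)
  have : CharP K q := inferInstance
  have hq2 : q ≠ 2 := by omega
  obtain ⟨s, hs⟩ := IsAlgClosed.exists_pow_nat_eq (5 : K) (n := 2) (by norm_num)
  have h2 : (2 : K) ≠ 0 := by
    intro h0
    have := (CharP.cast_eq_zero_iff K q 2).1 (by exact_mod_cast h0)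
    exact hq2 ((Nat.prime_dvd_prime_iff_eq hq Nat.prime_two).1 this)
  have h5' : (5 : K) ≠ 0 := by
    intro h0
    have := (CharP.cast_eq_zero_iff K q 5).1 (by exact_mod_cast h0)
    have := (Nat.prime_dvd_prime_iff_eq hq (by norm_num)).1 this
    omega
  have hleg : legendreSym q 5 = -1 := by
    rw [jacobiSym.legendreSym.to_jacobiSym]
    have e := jacobiSym.quadratic_reciprocity_one_mod_four (a := 5) (b := q) (by norm_num)
      (Nat.odd_iff.2 (by omega))
    have e' : jacobiSym 5 q = jacobiSym q 5 := by exact_mod_cast e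
    rw [e', jacobiSym.mod_left]
    have : (q : ℤ) % ((5 : ℕ) : ℤ) = 3 := by omega
    rw [this]
    norm_num
  have hpow : (5 : K) ^ (q / 2) = -1 := by
    have h0 := legendreSym.eq_pow q 5
    rw [hleg] at h0
    have h1 : (5 : ZMod q) ^ (q / 2) = -1 := by
      have : ((5 : ℤ) : ZMod q) = 5 := by push_cast; rfl
      rw [this] at h0
      rw [← h0]; push_cast; rfl
    have := congrArg (algebraMap (ZMod q) K) h1
    rwa [map_pow, map_neg, map_one, map_ofNat] at this
  have hsq : s ^ q = -s := by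
    have e : q = 2 * (q / 2) + 1 := by omega
    calc s ^ q = s ^ (2 * (q / 2) + 1) := congrArg _ e
      _ = -s := by rw [pow_succ, pow_mul, hs, hpow]; ring
  have h2q : (2 : K) ^ q = 2 := by
    have := ZMod.pow_card (2 : ZMod q)
    have := congrArg (algebraMap (ZMod q) K) this
    rwa [map_pow, map_ofNat] at this
  obtain ⟨x, hx⟩ : ∃ x : K, x = (1 + s) / 2 := ⟨_, rfl⟩
  obtain ⟨y, hy⟩ : ∃ y : K, y = (1 - s) / 2 := ⟨_, rfl⟩
  have hx' : 2 * x = 1 + s := by rw [hx, mul_div_cancel₀ _ h2]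
  have hy' : 2 * y = 1 - s := by rw [hy, mul_div_cancel₀ _ h2]
  have e1 : x + y = 1 := mul_left_cancel₀ h2 (by linear_combination hx' + hy')
  have e2 : x * y = -1 := mul_left_cancel₀ h2 (mul_left_cancel₀ h2 (by
    linear_combination (2 * y) * hx' + (1 + s) * hy' - hs))
  have hxq : x ^ q = y := by
    rw [hx, hy, div_pow, add_pow_char, hsq, h2q]; simp [sub_eq_add_neg]
  have hx2 : (x ^ P) ^ 2 = -1 := by
    rw [← pow_mul, mul_comm, ← h, pow_succ, hxq, mul_comm, e2]
  have hxy : x ^ P * y ^ P = -1 := by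
    rw [← mul_pow, e2]; exact Odd.neg_one_pow (Nat.odd_iff.2 hP)
  have hne : x ^ P ≠ 0 := by
    intro h0; rw [h0] at hx2; norm_num at hx2
  have heq : x ^ P = y ^ P := mul_left_cancel₀ hne (by rw [hxy, ← hx2]; ring)
  have hs0 : x - y ≠ 0 := by
    have : x - y = s := mul_left_cancel₀ h2 (by linear_combination hx' - hy')
    rw [this]; rintro rfl; apply h5'; rw [← hs]; simp
  have := fib_field x y e1 e2 P
  rw [heq, sub_self] at this
  exact (CharP.cast_eq_zero_iff K q _).1 ((mul_eq_zero.1 this).resolve_right hs0)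

theorem fib_big (n : ℕ) (hn : 8 ≤ n) : 2 * n ≤ Nat.fib n := by
  induction n, hn using Nat.le_induction with
  | base => decide
  | succ k hk ih =>
    obtain ⟨j, rfl⟩ : ∃ j, k = j + 1 := ⟨k - 1, by omega⟩
    rw [Nat.fib_add_two]
    have : Nat.fib 3 ≤ Nat.fib j := Nat.fib_mono (by omega)
    have h3 : Nat.fib 3 = 2 := by decide
    omega

theorem pow_mod (r : ℕ) (hr : r % 4 = 3) : 3 ^ r % 80 = 27 := by
  obtain ⟨k, rfl⟩ : ∃ k, r = 4 * k + 3 := ⟨r / 4, by omega⟩
  induction k with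
  | zero => decide
  | succ k ih =>
    have e : 3 ^ (4 * (k + 1) + 3) = 81 * 3 ^ (4 * k + 3) := by ring
    have := ih (by omega)
    omega

/-- For `r ≡ 3 mod 4`, `r > 3`, the three numbers are never all prime. -/
theorem key (r : ℕ) (hr : r % 4 = 3) (h3 : 3 < r) (hq : ((3 ^ r - 1) / 2).Prime) :
    ¬ (Nat.fib ((3 ^ r + 1) / 4)).Prime := by
  intro hF
  have hm := pow_mod r hr
  have hbig : 3 ^ 4 ≤ 3 ^ r := Nat.pow_le_pow_right (by norm_num) h3
  generalize 3 ^ r = t at *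
  have hd := dvd_fib ((t - 1) / 2) ((t + 1) / 4) hq (by omega) (by omega) (by omega)
  have he := (Nat.prime_dvd_prime_iff_eq hq hF).1 hd
  have := fib_big ((t + 1) / 4) (by omega)
  omega

theorem tri :
    {p : ℕ | p.Prime ∧ ¬ ((3 ^ p - 1) / 2).Prime}.Infinite ∨
    {p : ℕ | p.Prime ∧ ¬ ((3 ^ p + 1) / 4).Prime}.Infinite ∨
    {p : ℕ | p.Prime ∧ ¬ (Nat.fib p).Prime}.Infinite := by
  by_contra hcon
  push Not at hcon
  obtain ⟨h1, h2, h3⟩ := hcon
  obtain ⟨B1, hB1⟩ := h1.bddAbove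
  obtain ⟨B2, hB2⟩ := h2.bddAbove
  obtain ⟨B3, hB3⟩ := h3.bddAbove
  obtain ⟨r, hr, hrp, hr4⟩ := Nat.forall_exists_prime_gt_and_modEq (B1 + B2 + B3 + 3)
    (q := 4) (a := 3) (by norm_num) (by norm_num)
  have hr4' : r % 4 = 3 := hr4
  have hq : ((3 ^ r - 1) / 2).Prime := by
    by_contra h
    have := hB1 ⟨hrp, h⟩
    omega
  have hP : ((3 ^ r + 1) / 4).Prime := by
    by_contra h
    have := hB2 ⟨hrp, h⟩
    omega
  have := hB3 ⟨hP, key r hr4' (by omega) hq⟩
  have h4 : 4 * r ≤ 3 ^ r := by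
    have : ∀ n : ℕ, 3 ≤ n → 4 * n ≤ 3 ^ n := by
      intro n hn
      induction n, hn using Nat.le_induction with
      | base => norm_num
      | succ k hk ih => rw [pow_succ]; omega
    exact this r (by omega)
  omega

theorem cast1 (p : ℕ) :
    ((3 : ℤ) ^ p - 1 ^ p) / (3 - 1) = (((3 ^ p - 1) / 2 : ℕ) : ℤ) := by
  have : 1 ≤ 3 ^ p := Nat.one_le_pow _ _ (by norm_num)
  push_cast [this]
  norm_num

theorem cast2 (p : ℕ) (hp : Odd p) :
    ((3 : ℤ) ^ p - (-1) ^ p) / (3 - (-1)) = (((3 ^ p + 1) / 4 : ℕ) : ℤ) := by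
  rw [hp.neg_one_pow]
  push_cast
  norm_num

/-- At least one of `M_p(3,1)`, `M_p(3,-1)`, `F_p` (Fibonacci) is not prime for infinitely many
primes `p`. -/
theorem result :
    {p : ℕ | p.Prime ∧ ¬ Prime (((3 : ℤ) ^ p - 1 ^ p) / (3 - 1))}.Infinite ∨
    {p : ℕ | p.Prime ∧ ¬ Prime (((3 : ℤ) ^ p - (-1) ^ p) / (3 - (-1)))}.Infinite ∨
    {p : ℕ | p.Prime ∧ ¬ (Nat.fib p).Prime}.Infinite := by
  rcases tri with h | h | h
  · left
    refine h.mono ?_
    rintro p ⟨hp, hn⟩
    refine ⟨hp, fun h' => hn ?_⟩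
    rw [cast1] at h'
    exact Nat.prime_iff_prime_int.2 h'
  · right; left
    refine (h.sdiff (Set.finite_singleton 2)).mono ?_
    rintro p ⟨⟨hp, hn⟩, h2⟩
    refine ⟨hp, fun h' => hn ?_⟩
    rw [cast2 p (hp.odd_of_ne_two h2)] at h'
    exact Nat.prime_iff_prime_int.2 h'
  · right; right; exact h

end Pool.Agent.Results.MP_de9007_nt.Trichotomy
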