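import Pool.Agent.Lib.MP_de9007_nt.PU.CY2

/-! A power saving in the theorem of Stewart on the largest prime factor of `a ^ n - b ^ n`,
from an absolute index on, with the size of the part made of large primitive primes. -/

namespace Pool.Agent.Results.MP_de9007_nt.UniformRoughPart

open Pool.Agent.Lib.MP_de9007_nt.PU

theorem result : ∃ η : ℝ, 0 < η ∧ ∃ N : ℕ, ∀ a b : ℤ, 1 < a → -a < b → b < a → IsCoprime a b →
    ∀ n : ℕ, N ≤ n → ∃ d : ℕ, 1 < d ∧ (d : ℤ) ∣ (a ^ n - b ^ n) / (a - b) ∧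
      (a : ℝ) ^ ((n.totient : ℝ) - (n : ℝ) ^ (1 - η)) ≤ d ∧ ∀ q : ℕ, q.Prime → q ∣ d →
        (n : ℝ) ^ (1 + η) < q ∧ ∀ m : ℕ, 0 < m → m < n → ¬ (q : ℤ) ∣ a ^ m - b ^ m := by
  obtain ⟨η, h0, N, H⟩ := PD2
  refine ⟨η, h0, N + 2, fun a b ha h1 h2 hab n hn => ?_⟩
  obtain ⟨d, d1, d2, d3, d4⟩ := H a b hab ha h1 h2 n (by omega)
  refine ⟨d, d1, ?_, d3, d4⟩
  rw [← Int.mul_ediv_cancel' (sub_dvd_pow_sub_pow a b n)] at d2
  refine IsCoprime.dvd_of_dvd_mul_left ?_ d2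
  rw [Int.isCoprime_iff_gcd_eq_one, Int.gcd, Int.natAbs_natCast]
  refine Nat.eq_one_iff_not_exists_prime_dvd.2 fun q hq h => ?_
  refine (d4 q hq (h.trans (Nat.gcd_dvd_left _ _))).2 1 one_pos (by omega) ?_
  rw [pow_one, pow_one]
  exact Int.natCast_dvd.2 (h.trans (Nat.gcd_dvd_right _ _))

end Pool.Agent.Results.MP_de9007_nt.UniformRoughPart
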